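import Mathlib

/-! Primality certificates and the prime factors of the Fermat numbers 5, 6, 7, 8. -/

namespace Pool.Agent.Lib.MP_f53aaa_nt

/-- modular power by repeated squaring, with fuel -/
def pm (m : ℕ) : ℕ → ℕ → ℕ → ℕ
  | 0, _, _ => 1 % m
  | f + 1, a, e =>
    if e % 2 = 0 then pm m f (a * a % m) (e / 2) else a * pm m f (a * a % m) (e / 2) % m

theorem pm_eq (m : ℕ) : ∀ (f a e : ℕ), e < 2 ^ f → pm m f a e = a ^ e % m := by
  intro f
  induction f with
  | zero =>
    intro a e he
    have : e = 0 := by simpa using he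
    subst this
    simp [pm]
  | succ f ih =>
    intro a e he
    have h2 : e / 2 < 2 ^ f := by
      rw [pow_succ] at he
      omega
    have h3 := Nat.div_add_mod e 2
    rw [pm, ih _ _ h2]
    have h4 : (a * a % m) ^ (e / 2) % m = a ^ (2 * (e / 2)) % m := by
      rw [← Nat.pow_mod, ← pow_two, ← pow_mul]
    split_ifs with h
    · rw [h4]
      congr 2
      omega
    · have h5 : e % 2 = 1 := by omega
      rw [h4]
      have h6 : a ^ e = a * a ^ (2 * (e / 2)) := by
        conv_lhs => rw [← h3, h5, pow_succ]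
        ring
      rw [h6, Nat.mul_mod a (a ^ (2 * (e / 2)) % m) m, Nat.mod_mod, ← Nat.mul_mod]

/-- checker for a Lucas certificate -/
def chk (p a f : ℕ) (l : List ℕ) : Bool :=
  decide (1 < p) && decide (p - 1 = l.prod) && decide (p - 1 < 2 ^ f) &&
    decide (pm p f a (p - 1) = 1) && l.all (fun q => decide (pm p f a ((p - 1) / q) ≠ 1))

theorem pratt (p a f : ℕ) (l : List ℕ) (hl : ∀ q ∈ l, q.Prime) (h : chk p a f l = true) :
    p.Prime := by
  unfold chk at h
  simp only [Bool.and_eq_true, decide_eq_true_eq, List.all_eq_true] at h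
  obtain ⟨⟨⟨⟨h1, hp⟩, hf⟩, ha⟩, hd⟩ := h
  rw [pm_eq _ _ _ _ hf] at ha
  have hd' : ∀ q ∈ l, a ^ ((p - 1) / q) % p ≠ 1 := by
    intro q hq
    have h2 := hd q hq
    rwa [pm_eq _ _ _ _ (lt_of_le_of_lt (Nat.div_le_self _ _) hf)] at h2
  have : Fact (1 < p) := ⟨h1⟩
  have key : ∀ k : ℕ, ((a : ZMod p) ^ k = 1 ↔ a ^ k % p = 1) := by
    intro k
    have h2 : ((a : ZMod p) ^ k = 1) ↔ (((a ^ k : ℕ) : ZMod p) = ((1 : ℕ) : ZMod p)) := by
      push_cast
      exact Iff.rfl
    rw [h2, ZMod.natCast_eq_natCast_iff]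
    unfold Nat.ModEq
    rw [Nat.mod_eq_of_lt h1]
  refine lucas_primality p (a : ZMod p) ((key _).2 ha) ?_
  intro q hq hqd
  rw [Ne, key]
  rw [hp] at hqd
  obtain ⟨r, hr, hqr⟩ := (Prime.dvd_prod_iff hq.prime).1 hqd
  rw [(Nat.prime_dvd_prime_iff_eq hq (hl r hr)).1 hqr]
  exact hd' r hr

theorem p1 : Nat.Prime 67280421310721 := by
  refine pratt _ 3 50 [2, 2, 2, 2, 2, 2, 2, 2, 5, 47, 373, 2998279] ?_ (by decide +kernel)
  simp only [List.forall_mem_cons]; norm_num

theorem p2 : Nat.Prime 18533742247 := by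
  refine pratt _ 6 40 [2, 3, 3, 3, 181, 1896229] ?_ (by decide +kernel)
  simp only [List.forall_mem_cons]; norm_num

theorem p3 : Nat.Prime 116503103764643 := by
  refine pratt _ 2 50 [2, 7, 449, 18533742247] ?_ (by decide +kernel)
  simp only [List.forall_mem_cons]
  exact ⟨by norm_num, by norm_num, by norm_num, p2, by simp⟩

theorem p4 : Nat.Prime 59649589127497217 := by
  refine pratt _ 3 60 [2, 2, 2, 2, 2, 2, 2, 2, 2, 116503103764643] ?_ (by decide +kernel)
  intro q hq
  simp only [List.mem_cons, List.not_mem_nil, or_false] at hq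
  rcases hq with h | h | h | h | h | h | h | h | h | h <;> rw [h]
  all_goals first | exact p3 | norm_num

theorem p5 : Nat.Prime 733803839347 := by
  refine pratt _ 2 50 [2, 3, 2203, 55515497] ?_ (by decide +kernel)
  simp only [List.forall_mem_cons]; norm_num

theorem p6 : Nat.Prime 5704689200685129054721 := by
  refine pratt _ 21 80 [2, 2, 2, 2, 2, 2, 2, 2, 2, 3, 3, 3, 3, 3, 5, 12497, 733803839347] ?_
    (by decide +kernel)
  intro q hq
  simp only [List.mem_cons, List.not_mem_nil, or_false] at hq
  rcases hq with h | h | h | h | h | h | h | h | h | h | h | h | h | h | h | h | h <;> rw [h]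
  all_goals first | exact p5 | norm_num

theorem p7 : Nat.Prime 3853149761 := by
  refine pratt _ 6 40 [2, 2, 2, 2, 2, 2, 5, 719, 16747] ?_ (by decide +kernel)
  simp only [List.forall_mem_cons]; norm_num

theorem p8 : Nat.Prime 1238926361552897 := by
  refine pratt _ 3 60 [2, 2, 2, 2, 2, 2, 2, 2, 2, 2, 2, 157, 3853149761] ?_ (by decide +kernel)
  intro q hq
  simp only [List.mem_cons, List.not_mem_nil, or_false] at hq
  rcases hq with h | h | h | h | h | h | h | h | h | h | h | h | h <;> rw [h]
  all_goals first | exact p7 | norm_num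

theorem p9 : Nat.Prime 31618624099079 := by
  refine pratt _ 17 50 [2, 1789, 10079, 876769] ?_ (by decide +kernel)
  simp only [List.forall_mem_cons]; norm_num

theorem p10 : Nat.Prime 25353082741699 := by
  refine pratt _ 2 50 [2, 3, 3, 16879, 83447159] ?_ (by decide +kernel)
  simp only [List.forall_mem_cons]; norm_num

theorem p11 : Nat.Prime 6130957841 := by
  refine pratt _ 3 40 [2, 2, 2, 2, 5, 7, 10948139] ?_ (by decide +kernel)
  simp only [List.forall_mem_cons]; norm_num

theorem p12 : Nat.Prime 220714482277 := by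
  refine pratt _ 5 50 [2, 2, 3, 3, 6130957841] ?_ (by decide +kernel)
  simp only [List.forall_mem_cons]
  exact ⟨by norm_num, by norm_num, by norm_num, by norm_num, p11, by simp⟩

theorem p13 : Nat.Prime 9243081088796207 := by
  refine pratt _ 5 60 [2, 20939, 220714482277] ?_ (by decide +kernel)
  simp only [List.forall_mem_cons]
  exact ⟨by norm_num, by norm_num, p12, by simp⟩

theorem p14 : Nat.Prime 1057372046781162536274034354686893329625329 := by
  refine pratt _ 11 150 [2, 2, 2, 2, 3, 8861, 10608557, 25353082741699, 9243081088796207] ?_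
    (by decide +kernel)
  simp only [List.forall_mem_cons]
  exact ⟨by norm_num, by norm_num, by norm_num, by norm_num, by norm_num, by norm_num,
    by norm_num, p10, p13, by simp⟩

theorem p15 : Nat.Prime 93461639715357977769163558199606896584051237541638188580280321 := by
  refine pratt _ 43 220 [2, 2, 2, 2, 2, 2, 2, 2, 2, 2, 2, 3, 5, 7, 13, 31618624099079,
    1057372046781162536274034354686893329625329] ?_ (by decide +kernel)
  intro q hq
  simp only [List.mem_cons, List.not_mem_nil, or_false] at hq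
  rcases hq with h | h | h | h | h | h | h | h | h | h | h | h | h | h | h | h | h <;> rw [h]
  all_goals first | exact p9 | exact p14 | norm_num

/-- A prime factor of the Fermat number of index 5, 6, 7 or 8 is not 1 modulo `2^(i+4)`. -/
theorem fermat5678 (p i : ℕ) (hp : p.Prime) (h5 : 5 ≤ i) (h8 : i ≤ 8)
    (hd : p ∣ 2 ^ (2 ^ i) + 1) : ¬ 2 ^ (i + 4) ∣ p - 1 := by
  have two : ∀ a b : ℕ, a.Prime → b.Prime → p ∣ a * b → p = a ∨ p = b := by
    intro a b ha hb hab
    rcases (Nat.Prime.dvd_mul hp).1 hab with h | h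
    · exact Or.inl ((Nat.prime_dvd_prime_iff_eq hp ha).1 h)
    · exact Or.inr ((Nat.prime_dvd_prime_iff_eq hp hb).1 h)
  interval_cases i
  · have h : 2 ^ (2 ^ 5) + 1 = 641 * 6700417 := by norm_num
    rw [h] at hd
    rcases two _ _ (by norm_num) (by norm_num) hd with h | h <;> rw [h] <;> norm_num
  · have h : 2 ^ (2 ^ 6) + 1 = 274177 * 67280421310721 := by norm_num
    rw [h] at hd
    rcases two _ _ (by norm_num) p1 hd with h | h <;> rw [h] <;> norm_num
  · have h : 2 ^ (2 ^ 7) + 1 = 59649589127497217 * 5704689200685129054721 := by norm_num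
    rw [h] at hd
    rcases two _ _ p4 p6 hd with h | h <;> rw [h] <;> norm_num
  · have h : 2 ^ (2 ^ 8) + 1 = 1238926361552897 *
        93461639715357977769163558199606896584051237541638188580280321 := by norm_num
    rw [h] at hd
    rcases two _ _ p8 p15 hd with h | h <;> rw [h] <;> norm_num

end Pool.Agent.Lib.MP_f53aaa_nt
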