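import Mathlib
import Pool.Agent.Lib.MP_f53aaa_nt.Pratt

/-! Prime factors of the numbers `8 d_m ^ 2 + 1` which divide a Fermat number. -/

namespace Pool.Agent.Lib.MP_f53aaa_nt

/-- `(pell m).1 + (pell m).2 * sqrt 8 = (3 + sqrt 8) ^ m`. -/
def pell : ℕ → ℕ × ℕ
  | 0 => (1, 0)
  | m + 1 => (3 * (pell m).1 + 8 * (pell m).2, (pell m).1 + 3 * (pell m).2)

/-- the common value `8 d_m ^ 2 + 1 = 64 b_m ^ 2 + 9`. -/
def val (m : ℕ) : ℕ := 8 * (pell m).1 ^ 2 + 1

theorem pell_eq (m : ℕ) : (pell m).1 ^ 2 = 8 * (pell m).2 ^ 2 + 1 := by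
  induction m with
  | zero => simp [pell]
  | succ m ih =>
    simp only [pell]
    nlinarith [ih]

theorem val_eq (m : ℕ) : val m = 64 * (pell m).2 ^ 2 + 9 := by
  unfold val
  rw [pell_eq]
  ring

theorem val_mod3 (m : ℕ) : (m % 2 = 0 → (pell m).1 % 3 ≠ 0) ∧ (m % 2 = 1 → (pell m).1 % 3 = 0) ∧
    (m % 2 = 0 → (pell m).2 % 3 = 0) ∧ (m % 2 = 1 → (pell m).2 % 3 ≠ 0) := by
  induction m with
  | zero => simp [pell]
  | succ m ih =>
    obtain ⟨h1, h2, h3, h4⟩ := ih
    simp only [pell]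
    refine ⟨?_, ?_, ?_, ?_⟩ <;> intro h
    · have := h2 (by omega)
      have := h4 (by omega)
      omega
    · have := h1 (by omega)
      have := h3 (by omega)
      omega
    · have := h2 (by omega)
      have := h4 (by omega)
      omega
    · have := h1 (by omega)
      have := h3 (by omega)
      omega

theorem not_three (m : ℕ) (hm : m % 2 = 1) : ¬ 3 ∣ val m := by
  intro h
  have h1 := (val_mod3 m).2.1 hm
  unfold val at h
  have h2 : 3 ∣ 8 * (pell m).1 ^ 2 :=
    Dvd.dvd.mul_left (dvd_pow (Nat.dvd_of_mod_eq_zero h1) (by norm_num)) 8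
  have h3 := (Nat.dvd_add_right h2).1 h
  norm_num at h3

theorem not_two (m : ℕ) : ¬ 2 ∣ val m := by
  unfold val
  omega

/-- If an odd prime `p ≠ 3` divides `val m` then `F_p` contains `s` with `s ^ 2 = 2` and
`(1 + s) ^ (4 m) = -2`. -/
theorem exists_s (p m : ℕ) [Fact p.Prime] (h2 : p ≠ 2) (h3 : p ≠ 3) (h : p ∣ val m) :
    ∃ s : ZMod p, s ^ 2 = 2 ∧ (1 + s) ^ (4 * m) = -2 := by
  have hp : p.Prime := Fact.out
  have e1 : 8 * ((pell m).1 : ZMod p) ^ 2 + 1 = 0 := by
    have := (ZMod.natCast_eq_zero_iff (val m) p).2 h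
    unfold val at this
    push_cast at this
    exact this
  have e2 : 64 * ((pell m).2 : ZMod p) ^ 2 + 9 = 0 := by
    have := (ZMod.natCast_eq_zero_iff (val m) p).2 h
    rw [val_eq] at this
    push_cast at this
    exact this
  have c2 : (2 : ZMod p) ≠ 0 := by
    intro h0
    have : ((2 : ℕ) : ZMod p) = 0 := by exact_mod_cast h0
    rw [ZMod.natCast_eq_zero_iff] at this
    exact h2 ((Nat.prime_dvd_prime_iff_eq hp Nat.prime_two).1 this)
  have c3 : (3 : ZMod p) ≠ 0 := by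
    intro h0
    have : ((3 : ℕ) : ZMod p) = 0 := by exact_mod_cast h0
    rw [ZMod.natCast_eq_zero_iff] at this
    exact h3 ((Nat.prime_dvd_prime_iff_eq hp Nat.prime_three).1 this)
  set D : ZMod p := ((pell m).1 : ZMod p) with hD
  set B : ZMod p := ((pell m).2 : ZMod p) with hB
  have hB0 : B ≠ 0 := by
    intro h0
    rw [h0] at e2
    apply c3
    have : (3 : ZMod p) ^ 2 = 0 := by linear_combination e2
    exact pow_eq_zero_iff (two_ne_zero) |>.1 this
  obtain ⟨s, hs⟩ : ∃ s : ZMod p, s * (2 * B) = 3 * D := ⟨3 * D / (2 * B), by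
    field_simp⟩
  have hs2 : s ^ 2 = 2 := by
    have h4 : (s ^ 2 - 2) * (32 * B ^ 2) = 0 := by
      have : (s * (2 * B)) ^ 2 = (3 * D) ^ 2 := by rw [hs]
      linear_combination 8 * this + 9 * e1 - e2
    have h5 : (32 * B ^ 2 : ZMod p) ≠ 0 := by
      have : (32 : ZMod p) = 2 ^ 5 := by norm_num
      rw [this]
      exact mul_ne_zero (pow_ne_zero _ c2) (pow_ne_zero _ hB0)
    rcases mul_eq_zero.1 h4 with h6 | h6
    · linear_combination h6
    · exact absurd h6 h5
  have key : ∀ k : ℕ, (3 + 2 * s) ^ k = ((pell k).1 : ZMod p) + 2 * ((pell k).2 : ZMod p) * s := by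
    intro k
    induction k with
    | zero => simp [pell]
    | succ k ih =>
      rw [pow_succ, ih]
      simp only [pell]
      push_cast
      linear_combination (4 * ((pell k).2 : ZMod p)) * hs2
  refine ⟨s, hs2, ?_⟩
  have h7 : (1 + s) ^ 2 = 3 + 2 * s := by linear_combination hs2
  have h8 : (1 + s) ^ (4 * m) = ((3 + 2 * s) ^ m) ^ 2 := by
    rw [← h7, ← pow_mul, ← pow_mul]
    congr 1
    ring
  rw [h8, key m, ← hD, ← hB]
  have h9 : D + 2 * B * s = 4 * D := by linear_combination hs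
  rw [h9]
  linear_combination 2 * e1

/-- If `p - 1` divides `2 ^ t * m` (with `t` positive) then a prime factor `p` of `val m`, `m` odd,
divides a Fermat number. -/
theorem dvd_fermat (p m t : ℕ) [Fact p.Prime] (h2 : p ≠ 2) (h3 : p ≠ 3) (h : p ∣ val m)
    (ht : 1 ≤ t) (hd : p - 1 ∣ 2 ^ t * m) : ∃ i, p ∣ 2 ^ (2 ^ i) + 1 := by
  have hp : p.Prime := Fact.out
  obtain ⟨s, hs, he⟩ := exists_s p m h2 h3 h
  have c2 : (2 : ZMod p) ≠ 0 := by
    intro h0
    have : ((2 : ℕ) : ZMod p) = 0 := by exact_mod_cast h0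
    rw [ZMod.natCast_eq_zero_iff] at this
    exact h2 ((Nat.prime_dvd_prime_iff_eq hp Nat.prime_two).1 this)
  have hne : (1 + s) ≠ 0 := by
    intro h0
    have : s = -1 := by linear_combination h0
    rw [this] at hs
    have h1 : (1 : ZMod p) = 0 := by linear_combination -hs
    exact one_ne_zero h1
  have h1 : ((2 : ZMod p)) ^ (2 ^ t) = 1 := by
    have e1 : ((-2 : ZMod p)) ^ (2 ^ t) = 1 := by
      rw [← he, ← pow_mul]
      obtain ⟨c, hc⟩ := hd
      have : 4 * m * 2 ^ t = (p - 1) * (4 * c) := by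
        calc 4 * m * 2 ^ t = 4 * (2 ^ t * m) := by ring
          _ = _ := by rw [hc]; ring
      rw [this, pow_mul, ZMod.pow_card_sub_one_eq_one hne, one_pow]
    have e2 : Even (2 ^ t) := ⟨2 ^ (t - 1), by
      obtain ⟨u, rfl⟩ : ∃ u, t = u + 1 := ⟨t - 1, by omega⟩
      simp [pow_succ]
      ring⟩
    rwa [e2.neg_pow] at e1
  -- least exponent
  classical
  have hex : ∃ j, ((2 : ZMod p)) ^ (2 ^ j) = 1 := ⟨t, h1⟩
  have hj := Nat.find_spec hex
  set j := Nat.find hex with hjdef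
  have hj0 : j ≠ 0 := by
    intro h0
    rw [h0] at hj
    have : (1 : ZMod p) = 0 := by linear_combination hj
    exact one_ne_zero this
  obtain ⟨i, hi⟩ : ∃ i, j = i + 1 := ⟨j - 1, by omega⟩
  have hi' : ¬ ((2 : ZMod p)) ^ (2 ^ i) = 1 := Nat.find_min hex (by omega)
  refine ⟨i, ?_⟩
  rw [hi, pow_succ, pow_mul] at hj
  have h4 : (((2 : ZMod p)) ^ (2 ^ i) - 1) * (((2 : ZMod p)) ^ (2 ^ i) + 1) = 0 := by
    linear_combination hj
  rcases mul_eq_zero.1 h4 with h5 | h5
  · exact absurd (sub_eq_zero.1 h5) hi'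
  · rw [← ZMod.natCast_eq_zero_iff]
    push_cast
    exact h5

theorem ord_dvd {p : ℕ} [Fact p.Prime] {x : ZMod p} {n : ℕ} (hx : x ^ (2 ^ n) = -1)
    (hp : p ≠ 2) : 2 ^ (n + 1) ∣ p - 1 := by
  have hp' : p.Prime := Fact.out
  have c2 : (2 : ZMod p) ≠ 0 := by
    intro h0
    have : ((2 : ℕ) : ZMod p) = 0 := by exact_mod_cast h0
    rw [ZMod.natCast_eq_zero_iff] at this
    exact hp ((Nat.prime_dvd_prime_iff_eq hp' Nat.prime_two).1 this)
  have hne : x ≠ 0 := by
    rintro rfl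
    rw [zero_pow (by positivity)] at hx
    have : (1 : ZMod p) = 0 := by linear_combination hx
    exact one_ne_zero this
  have h1 : orderOf x = 2 ^ (n + 1) := by
    refine orderOf_eq_prime_pow ?_ ?_
    · rw [hx]
      intro h
      apply c2
      linear_combination -h
    · rw [pow_succ, pow_mul, hx]
      norm_num
  rw [← h1]
  exact orderOf_dvd_of_pow_eq_one (ZMod.pow_card_sub_one_eq_one hne)

/-- `2` is minus a fourth power: consequences modulo a prime factor of a Fermat number. -/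
theorem two_pow_dvd (p m i : ℕ) [Fact p.Prime] (h2 : p ≠ 2) (h3 : p ≠ 3)
    (h : p ∣ val m) (hi : p ∣ 2 ^ (2 ^ i) + 1) : 1 ≤ i ∧ 2 ^ (i + 4) ∣ p - 1 := by
  have hp' : p.Prime := Fact.out
  have hi1 : 1 ≤ i := by
    rcases Nat.eq_zero_or_pos i with h0 | h0
    · rw [h0] at hi
      norm_num at hi
      exact absurd ((Nat.prime_dvd_prime_iff_eq hp' Nat.prime_three).1 hi) h3
    · exact h0
  refine ⟨hi1, ?_⟩
  obtain ⟨s, hs, he⟩ := exists_s p m h2 h3 h
  have c2 : (2 : ZMod p) ≠ 0 := by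
    intro h0
    have : ((2 : ℕ) : ZMod p) = 0 := by exact_mod_cast h0
    rw [ZMod.natCast_eq_zero_iff] at this
    exact h2 ((Nat.prime_dvd_prime_iff_eq hp' Nat.prime_two).1 this)
  have hF : ((2 : ZMod p)) ^ (2 ^ i) = -1 := by
    have h1 : ((2 ^ (2 ^ i) + 1 : ℕ) : ZMod p) = 0 := (ZMod.natCast_eq_zero_iff _ p).2 hi
    push_cast at h1
    linear_combination h1
  have hneg : ((-2 : ZMod p)) ^ (2 ^ i) = -1 := by
    have e2 : Even (2 ^ i) := ⟨2 ^ (i - 1), by
      obtain ⟨u, rfl⟩ : ∃ u, i = u + 1 := ⟨i - 1, by omega⟩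
      simp [pow_succ]
      ring⟩
    rwa [e2.neg_pow]
  -- w = (1 + s) ^ m
  set w : ZMod p := (1 + s) ^ m with hw
  have hw4 : w ^ 4 = -2 := by
    rw [hw, ← pow_mul, ← he]
    congr 1
    ring
  have hw1 : w ^ (2 ^ (i + 2)) = -1 := by
    have : 2 ^ (i + 2) = 4 * 2 ^ i := by ring
    rw [this, pow_mul, hw4, hneg]
  have hw0 : w ≠ 0 := by
    intro h0
    rw [h0] at hw4
    apply c2
    linear_combination hw4
  -- an eighth root of minus one
  set z : ZMod p := w ^ (2 ^ (i - 1)) with hz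
  have hz8 : z ^ 8 = -1 := by
    rw [hz, ← pow_mul, ← hw1]
    congr 1
    obtain ⟨u, rfl⟩ : ∃ u, i = u + 1 := ⟨i - 1, by omega⟩
    simp only [Nat.add_sub_cancel]
    ring
  -- sum of z^2 and its inverse is a square root of 2, up to sign `s`
  have hsq : ∃ z : ZMod p, z ^ 8 = -1 ∧ z ^ 2 - z ^ 6 = s := by
    have h1 : (z ^ 2 - z ^ 6) ^ 2 = 2 := by
      have h16 : z ^ 12 = - z ^ 4 := by linear_combination z ^ 4 * hz8
      linear_combination h16 - 2 * hz8
    have h4 : (z ^ 2 - z ^ 6 - s) * (z ^ 2 - z ^ 6 + s) = 0 := by linear_combination h1 - hs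
    rcases mul_eq_zero.1 h4 with h5 | h5
    · exact ⟨z, hz8, by linear_combination h5⟩
    · refine ⟨z ^ 3, ?_, ?_⟩
      · linear_combination (z ^ 16 - z ^ 8 + 1) * hz8
      · linear_combination (- z ^ 10 + z ^ 2) * hz8 - h5
  obtain ⟨y, hy8, hys⟩ := hsq
  -- s is a square
  have hsr : ∃ r : ZMod p, r ^ 2 = s := by
    have h1 : ((y ^ 2 * w) ^ 2) ^ 2 = s ^ 2 := by
      rw [hs]
      linear_combination w ^ 4 * hy8 - hw4
    have h4 : ((y ^ 2 * w) ^ 2 - s) * ((y ^ 2 * w) ^ 2 + s) = 0 := by linear_combination h1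
    rcases mul_eq_zero.1 h4 with h5 | h5
    · exact ⟨y ^ 2 * w, by linear_combination h5⟩
    · refine ⟨y ^ 4 * (y ^ 2 * w), ?_⟩
      linear_combination (y ^ 4 * w ^ 2) * hy8 - h5
  obtain ⟨r, hr⟩ := hsr
  have hr0 : r ≠ 0 := by
    rintro rfl
    have : s = 0 := by rw [← hr]; ring
    rw [this] at hs
    apply c2
    linear_combination -hs
  -- 1 + s is a square
  obtain ⟨e, hee⟩ : ∃ e : ZMod p, e * r = y - y ^ 7 := ⟨(y - y ^ 7) / r, by field_simp⟩
  have he2 : e ^ 2 = 1 + s := by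
    have h5 : (e ^ 2 - (1 + s)) * r ^ 2 = 0 := by
      have : (e * r) ^ 2 = (y - y ^ 7) ^ 2 := by rw [hee]
      linear_combination this - (1 + s) * hr + (y ^ 6 - 2) * hy8 + hys - hs
    rcases mul_eq_zero.1 h5 with h6 | h6
    · linear_combination h6
    · exact absurd h6 (pow_ne_zero _ hr0)
  have hfin : (e ^ m) ^ (2 ^ (i + 3)) = -1 := by
    have h1 : 2 ^ (i + 3) = 2 * 2 ^ (i + 2) := by ring
    rw [h1, pow_mul, ← pow_mul e m 2, mul_comm m 2, pow_mul e 2 m, he2, ← hw, hw1]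
  exact ord_dvd hfin h2

theorem c257 : ((60 : ZMod 257) ^ 2 = 2) ∧ ((61 : ZMod 257) ^ 64 = -1) ∧
    ((59 : ZMod 257) ^ 64 = -1) ∧ ((2 : ZMod 257) ^ 16 = 1) := by
  have h : (((60 ^ 2 : ℕ) : ZMod 257) = ((2 : ℕ) : ZMod 257)) ∧
      (((61 ^ 64 + 1 : ℕ) : ZMod 257) = ((0 : ℕ) : ZMod 257)) ∧
      (((59 ^ 64 + 1 : ℕ) : ZMod 257) = ((0 : ℕ) : ZMod 257)) ∧
      (((2 ^ 16 : ℕ) : ZMod 257) = ((1 : ℕ) : ZMod 257)) := by
    simp only [ZMod.natCast_eq_natCast_iff]
    decide +kernel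
  obtain ⟨h1, h2, h3, h4⟩ := h
  push_cast at h1 h2 h3 h4
  exact ⟨h1, by linear_combination h2, by linear_combination h3, h4⟩

theorem irr257 (m : ℕ) (hm : m % 2 = 1) : ¬ 257 ∣ val m := by
  intro h
  have : Fact (Nat.Prime 257) := ⟨by norm_num⟩
  obtain ⟨s, hs, he⟩ := exists_s 257 m (by norm_num) (by norm_num) h
  obtain ⟨h60, h61, h59, h216⟩ := c257
  have h4 : (s - 60) * (s + 60) = 0 := by linear_combination hs - h60
  have h5 : (1 + s) ^ 64 = -1 := by
    rcases mul_eq_zero.1 h4 with h5 | h5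
    · have : 1 + s = 61 := by linear_combination h5
      rw [this, h61]
    · have : 1 + s = -59 := by linear_combination h5
      rw [this, Even.neg_pow ⟨32, by norm_num⟩, h59]
  have h6 : ((1 + s) ^ (4 * m)) ^ 16 = -1 := by
    rw [← pow_mul]
    have : 4 * m * 16 = 64 * m := by ring
    rw [this, pow_mul, h5]
    exact Odd.neg_one_pow (Nat.odd_iff.2 hm)
  rw [he, Even.neg_pow ⟨8, by norm_num⟩, h216] at h6
  have h8 : ((2 : ℕ) : ZMod 257) = 0 := by
    push_cast
    linear_combination h6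
  rw [ZMod.natCast_eq_zero_iff] at h8
  norm_num at h8

set_option exponentiation.threshold 5000 in
theorem irr65537 (m : ℕ) (hm : m % 2 = 1) : ¬ 65537 ∣ val m := by
  intro h
  have : Fact (Nat.Prime 65537) := ⟨by norm_num⟩
  obtain ⟨s, hs, he⟩ := exists_s 65537 m (by norm_num) (by norm_num) h
  have h60 : (4080 : ZMod 65537) ^ 2 = 2 := by
    have : ((4080 ^ 2 : ℕ) : ZMod 65537) = ((2 : ℕ) : ZMod 65537) := by
      rw [ZMod.natCast_eq_natCast_iff]
      decide
    exact_mod_cast this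
  have h4 : (s - 4080) * (s + 4080) = 0 := by linear_combination hs - h60
  have h5 : (1 + s) ^ 4096 = -1 := by
    have a1 : ((4081 : ZMod 65537)) ^ 4096 = -1 := by
      have : ((4081 ^ 4096 + 1 : ℕ) : ZMod 65537) = 0 := by
        rw [ZMod.natCast_eq_zero_iff]
        exact Nat.dvd_of_mod_eq_zero (by decide +kernel)
      push_cast at this
      linear_combination this
    have a2 : ((4079 : ZMod 65537)) ^ 4096 = -1 := by
      have : ((4079 ^ 4096 + 1 : ℕ) : ZMod 65537) = 0 := by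
        rw [ZMod.natCast_eq_zero_iff]
        exact Nat.dvd_of_mod_eq_zero (by decide +kernel)
      push_cast at this
      linear_combination this
    rcases mul_eq_zero.1 h4 with h5 | h5
    · have h6 : 1 + s = 4081 := by linear_combination h5
      rw [h6, a1]
    · have h6 : 1 + s = -4079 := by linear_combination h5
      rw [h6, Even.neg_pow ⟨2048, by norm_num⟩, a2]
  have h6 : ((1 + s) ^ (4 * m)) ^ 1024 = -1 := by
    rw [← pow_mul]
    have : 4 * m * 1024 = 4096 * m := by ring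
    rw [this, pow_mul, h5]
    exact Odd.neg_one_pow (Nat.odd_iff.2 hm)
  rw [he, Even.neg_pow ⟨512, by norm_num⟩] at h6
  have h7 : ((2 : ZMod 65537)) ^ 1024 = 1 := by
    have : ((2 ^ 1024 : ℕ) : ZMod 65537) = ((1 : ℕ) : ZMod 65537) := by
      rw [ZMod.natCast_eq_natCast_iff]
      decide +kernel
    exact_mod_cast this
  rw [h7] at h6
  have h8 : ((2 : ℕ) : ZMod 65537) = 0 := by
    push_cast
    linear_combination h6
  rw [ZMod.natCast_eq_zero_iff] at h8
  norm_num at h8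

/-- the exceptional primes -/
def Exceptional (p i : ℕ) : Prop := 9 ≤ i ∧ 2 ^ (i + 4) ∣ p - 1 ∧ p ∣ 2 ^ (2 ^ i) + 1

theorem exc_of (p m i : ℕ) (hp : p.Prime) (hm : m % 2 = 1) (h : p ∣ val m)
    (hi : p ∣ 2 ^ (2 ^ i) + 1) : Exceptional p i := by
  have : Fact p.Prime := ⟨hp⟩
  have h2 : p ≠ 2 := by
    rintro rfl
    exact not_two m h
  have h3 : p ≠ 3 := by
    rintro rfl
    exact not_three m hm h
  obtain ⟨hi1, hi2⟩ := two_pow_dvd p m i h2 h3 h hi
  refine ⟨?_, hi2, hi⟩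
  by_contra hlt
  have hcase : i = 1 ∨ i = 2 ∨ i = 3 ∨ i = 4 ∨ (5 ≤ i ∧ i ≤ 8) := by omega
  rcases hcase with rfl | rfl | rfl | rfl | ⟨h5, h8⟩
  · norm_num at hi
    rw [(Nat.prime_dvd_prime_iff_eq hp (by norm_num)).1 hi] at hi2
    norm_num at hi2
  · norm_num at hi
    rw [(Nat.prime_dvd_prime_iff_eq hp (by norm_num)).1 hi] at hi2
    norm_num at hi2
  · norm_num at hi
    rw [(Nat.prime_dvd_prime_iff_eq hp (by norm_num)).1 hi] at h
    exact irr257 m hm h
  · norm_num at hi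
    rw [(Nat.prime_dvd_prime_iff_eq hp (by norm_num)).1 hi] at h
    exact irr65537 m hm h
  · exact fermat5678 p i hp h5 h8 hi hi2

theorem exists_fermat (p m t : ℕ) (hp : p.Prime) (hm : m % 2 = 1) (h : p ∣ val m)
    (hd : p - 1 ∣ 2 ^ t * m) : ∃ i, p ∣ 2 ^ (2 ^ i) + 1 := by
  have : Fact p.Prime := ⟨hp⟩
  have h2 : p ≠ 2 := by
    rintro rfl
    exact not_two m h
  have h3 : p ≠ 3 := by
    rintro rfl
    exact not_three m hm h
  have hd' : p - 1 ∣ 2 ^ (t + 1) * m := by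
    rw [pow_succ, mul_right_comm]
    exact Dvd.dvd.mul_right hd 2
  exact dvd_fermat p m (t + 1) h2 h3 h (by omega) hd'

theorem two_pow_dvd_of {o m i : ℕ} (ho : 0 < o) (h1 : o ∣ m * 2 ^ (i + 1))
    (h2 : ¬ o ∣ m * 2 ^ i) : 2 ^ (i + 1) ∣ o := by
  obtain ⟨k, u, hu, rfl⟩ := Nat.exists_eq_two_pow_mul_odd ho.ne'
  rcases Nat.lt_or_ge i k with hk | hk
  · exact Dvd.dvd.mul_right (pow_dvd_pow 2 hk) u
  · exfalso
    apply h2
    have h3 : u ∣ m * 2 ^ (i + 1) := (Dvd.intro_left _ rfl).trans h1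
    have h4 : Nat.Coprime u (2 ^ (i + 1)) := by
      apply Nat.Coprime.pow_right
      exact (Nat.coprime_two_right).2 hu
    have h5 : u ∣ m := h4.dvd_of_dvd_mul_right h3
    rw [mul_comm m]
    exact mul_dvd_mul (pow_dvd_pow 2 hk) h5

theorem cls (p m m' i : ℕ) (hp : p.Prime) (hm : m % 2 = 1)
    (h : p ∣ val m) (h' : p ∣ val m') (hi : p ∣ 2 ^ (2 ^ i) + 1) (hi1 : 1 ≤ i) :
    ((2 ^ (i + 1) : ℕ) : ℤ) ∣ m - m' ∨ ((2 ^ (i + 1) : ℕ) : ℤ) ∣ m + m' := by
  have : Fact p.Prime := ⟨hp⟩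
  have h2 : p ≠ 2 := by
    rintro rfl
    exact not_two m h
  have h3 : p ≠ 3 := by
    rintro rfl
    exact not_three m hm h
  obtain ⟨s, hs, he⟩ := exists_s p m h2 h3 h
  obtain ⟨s', hs', he'⟩ := exists_s p m' h2 h3 h'
  have c2 : (2 : ZMod p) ≠ 0 := by
    intro h0
    have : ((2 : ℕ) : ZMod p) = 0 := by exact_mod_cast h0
    rw [ZMod.natCast_eq_zero_iff] at this
    exact h2 ((Nat.prime_dvd_prime_iff_eq hp Nat.prime_two).1 this)
  have hF : ((2 : ZMod p)) ^ (2 ^ i) = -1 := by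
    have h1 : ((2 ^ (2 ^ i) + 1 : ℕ) : ZMod p) = 0 := (ZMod.natCast_eq_zero_iff _ p).2 hi
    push_cast at h1
    linear_combination h1
  have hneg : ((-2 : ZMod p)) ^ (2 ^ i) = -1 := by
    have e2 : Even (2 ^ i) := ⟨2 ^ (i - 1), by
      obtain ⟨u, rfl⟩ : ∃ u, i = u + 1 := ⟨i - 1, by omega⟩
      simp [pow_succ]
      ring⟩
    rwa [e2.neg_pow]
  -- the unit g = (1+s)^4
  have hgg : (1 + s) ^ 4 * (1 - s) ^ 4 = 1 := by
    have : (1 + s) * (1 - s) = -1 := by linear_combination -hs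
    rw [← mul_pow, this]
    norm_num
  have hgg' : (1 - s) ^ 4 * (1 + s) ^ 4 = 1 := by rw [mul_comm]; exact hgg
  let g : (ZMod p)ˣ := ⟨(1 + s) ^ 4, (1 - s) ^ 4, hgg, hgg'⟩
  have hgm : ((g ^ m : (ZMod p)ˣ) : ZMod p) = -2 := by
    rw [Units.val_pow_eq_pow_val, ← he, pow_mul]
  have hord : 2 ^ (i + 1) ∣ orderOf g := by
    refine two_pow_dvd_of (m := m) (orderOf_pos g) ?_ ?_
    · apply orderOf_dvd_of_pow_eq_one
      rw [pow_mul]
      ext
      rw [Units.val_pow_eq_pow_val, hgm, pow_succ, pow_mul, hneg]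
      norm_num
    · intro hdv
      have h4 := orderOf_dvd_iff_pow_eq_one.1 hdv
      rw [pow_mul] at h4
      have h5 := congrArg (fun x : (ZMod p)ˣ => (x : ZMod p)) h4
      simp only [Units.val_pow_eq_pow_val, Units.val_one] at h5
      rw [← Units.val_pow_eq_pow_val g m, hgm, hneg] at h5
      apply c2
      linear_combination -h5
  have h4 : (s' - s) * (s' + s) = 0 := by linear_combination hs' - hs
  rcases mul_eq_zero.1 h4 with h5 | h5
  · left
    have hss : s' = s := by linear_combination h5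
    have hgm' : ((g ^ m' : (ZMod p)ˣ) : ZMod p) = -2 := by
      rw [Units.val_pow_eq_pow_val, ← he', hss, pow_mul]
    have h6 : g ^ ((m : ℤ) - (m' : ℤ)) = 1 := by
      rw [zpow_sub, zpow_natCast, zpow_natCast, mul_inv_eq_one]
      ext
      rw [hgm, hgm']
    exact (Int.natCast_dvd_natCast.2 hord).trans (orderOf_dvd_iff_zpow_eq_one.2 h6)
  · right
    have hss : s' = -s := by linear_combination h5
    have hgm' : ((g⁻¹ ^ m' : (ZMod p)ˣ) : ZMod p) = -2 := by
      rw [Units.val_pow_eq_pow_val, ← he', hss, pow_mul]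
      have h8 : ((g⁻¹ : (ZMod p)ˣ) : ZMod p) = (1 - s) ^ 4 := rfl
      rw [h8, sub_eq_add_neg]
    have h6 : g ^ ((m : ℤ) + (m' : ℤ)) = 1 := by
      rw [zpow_add, zpow_natCast, zpow_natCast]
      have h7 : g ^ m = g⁻¹ ^ m' := by
        ext
        rw [hgm, hgm']
      rw [h7, inv_pow, inv_mul_cancel]
    exact (Int.natCast_dvd_natCast.2 hord).trans (orderOf_dvd_iff_zpow_eq_one.2 h6)

theorem card_le (i n c : ℕ) (A : Finset ℕ) (hA : ∀ a ∈ A, a < 2 ^ (i + n))
    (hc : ∀ a ∈ A, a % 2 ^ i = c) : A.card ≤ 2 ^ n := by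
  have h1 : A.card ≤ (Finset.range (2 ^ n)).card := by
    refine Finset.card_le_card_of_injOn (fun a => a / 2 ^ i) ?_ ?_
    · intro a ha
      have ha' : a ∈ A := ha
      simp only [Finset.coe_range, Set.mem_Iio]
      rw [Nat.div_lt_iff_lt_mul (by positivity), ← pow_add, add_comm n i]
      exact hA a ha'
    · intro a ha b hb hab
      have ha' : a ∈ A := ha
      have hb' : b ∈ A := hb
      have h2 := Nat.div_add_mod a (2 ^ i)
      have h3 := Nat.div_add_mod b (2 ^ i)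
      simp only at hab
      rw [← h2, ← h3, hc a ha', hc b hb', hab]
  simpa using h1

/-- the least index of a Fermat number divisible by `p` (`0` if there is none) -/
noncomputable def idx (p : ℕ) : ℕ := sInf {i | p ∣ 2 ^ (2 ^ i) + 1}

open Classical in
theorem no_cover (S : Finset ℕ) (hS : ∀ p ∈ S, p.Prime)
    (hsum : ∑ p ∈ S.filter (fun p => Exceptional p (idx p)), (2 : ℚ) / 2 ^ idx p < 1) :
    ∃ q r, r < q ∧ ∀ m, m % q = r → ∀ p ∈ S, ¬ p ∣ val m := by
  -- bound and factorial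
  set y := S.sup id with hy
  have hle : ∀ p ∈ S, p ≤ y := fun p hp => Finset.le_sup (f := id) hp
  obtain ⟨t, G, hG, hT⟩ := Nat.exists_eq_two_pow_mul_odd (Nat.factorial_ne_zero y)
  have hG' : G % 2 = 1 := Nat.odd_iff.1 hG
  set K := y + 1 with hK
  have hco : Nat.Coprime G (2 ^ K) := Nat.Coprime.pow_right _ ((Nat.coprime_two_right).2 hG)
  have hGpos : 0 < G := Nat.pos_of_ne_zero (by rintro rfl; simp at hG')
  by_contra hno
  push Not at hno
  have hbad : ∀ a < 2 ^ (K - 1), ∃ m, G ∣ m ∧ m % 2 ^ K = 2 * a + 1 ∧ ∃ p ∈ S, p ∣ val m := by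
    intro a ha
    have h2a : 2 * a + 1 < 2 ^ K := by
      have : 2 ^ K = 2 * 2 ^ (K - 1) := by
        rw [hK]
        simp only [Nat.add_sub_cancel]
        ring
      omega
    obtain ⟨k, hk1, hk2⟩ := Nat.chineseRemainder hco 0 (2 * a + 1)
    obtain ⟨m, hm, p, hpS, hpm⟩ := hno (G * 2 ^ K) (k % (G * 2 ^ K))
      (Nat.mod_lt _ (by positivity))
    have e1 : m ≡ k [MOD G * 2 ^ K] := hm
    refine ⟨m, ?_, ?_, p, hpS, hpm⟩
    · exact (Nat.modEq_zero_iff_dvd).1 ((e1.of_mul_right _).trans hk1)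
    · have := (e1.of_mul_left _).trans hk2
      unfold Nat.ModEq at this
      rw [this, Nat.mod_eq_of_lt h2a]
  -- the bad sets
  set Bad : ℕ → Finset ℕ := fun p => (Finset.range (2 ^ (K - 1))).filter
    (fun a => ∃ m, G ∣ m ∧ m % 2 ^ K = 2 * a + 1 ∧ p ∣ val m) with hBad
  have hodd : ∀ a m, m % 2 ^ K = 2 * a + 1 → m % 2 = 1 := by
    intro a m hm
    have h2K : 2 ∣ 2 ^ K := dvd_pow_self 2 (by omega)
    have : m % 2 ^ K % 2 = m % 2 := Nat.mod_mod_of_dvd m h2K
    rw [← this, hm]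
    omega
  have hexc : ∀ p ∈ S, ∀ a ∈ Bad p, Exceptional p (idx p) := by
    intro p hp a ha
    rw [hBad, Finset.mem_filter] at ha
    obtain ⟨-, m, hGm, hm, hpm⟩ := ha
    refine exc_of p m (idx p) (hS p hp) (hodd a m hm) hpm ?_
    refine Nat.sInf_mem (s := {i | p ∣ 2 ^ (2 ^ i) + 1}) ?_
    refine exists_fermat p m t (hS p hp) (hodd a m hm) hpm ?_
    have h1 : p - 1 ∣ Nat.factorial y := by
      apply Nat.dvd_factorial
      · have := (hS p hp).two_le
        omega
      · have := hle p hp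
        omega
    rw [hT] at h1
    exact h1.trans (mul_dvd_mul_left _ hGm)
  have hbc : ∀ p ∈ S, (Bad p).card * 2 ^ (idx p) ≤ 2 * 2 ^ (K - 1) := by
    intro p hp
    rcases (Bad p).eq_empty_or_nonempty with h0 | ⟨a0, ha0⟩
    · rw [h0]
      simp
    · have hx := hexc p hp a0 ha0
      obtain ⟨i, hidx⟩ : ∃ i, i = idx p := ⟨_, rfl⟩
      rw [← hidx] at hx ⊢
      obtain ⟨hi9, hi4, hiF⟩ := hx
      have hiK : i + 1 ≤ K := by
        have h1 : 2 ^ (i + 4) ≤ p - 1 := Nat.le_of_dvd (by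
          have := (hS p hp).two_le
          omega) hi4
        have h2 : i + 4 < 2 ^ (i + 4) := Nat.lt_two_pow_self
        have := hle p hp
        omega
      obtain ⟨n, hn⟩ : ∃ n, K - 1 = i + n := ⟨K - 1 - i, by omega⟩
      have ha0' := ha0
      rw [hBad, Finset.mem_filter] at ha0'
      obtain ⟨-, m0, hG0, hm0, hp0⟩ := ha0'
      have hsub : Bad p ⊆ ((Finset.range (2 ^ (K - 1))).filter (fun a => a % 2 ^ i = a0 % 2 ^ i)) ∪
          ((Finset.range (2 ^ (K - 1))).filter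
            (fun a => a % 2 ^ i = (2 ^ i - 1 - a0 % 2 ^ i))) := by
        intro a ha
        have ha' := ha
        rw [hBad, Finset.mem_filter] at ha'
        obtain ⟨har, m1, hG1, hm1, hp1⟩ := ha'
        have h1 := cls p m1 m0 i (hS p hp) (hodd a m1 hm1) hp1 hp0 hiF (by omega)
        rw [Finset.mem_union, Finset.mem_filter, Finset.mem_filter]
        have e1 : ((2 ^ (i + 1) : ℕ) : ℤ) ∣ (m1 : ℤ) - (2 * a + 1 : ℕ) := by
          have h2 : 2 ^ (i + 1) ∣ 2 ^ K := pow_dvd_pow 2 hiK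
          have h3 := Nat.div_add_mod m1 (2 ^ K)
          rw [hm1] at h3
          refine (Int.natCast_dvd_natCast.2 h2).trans ⟨(m1 / 2 ^ K : ℕ), ?_⟩
          rw [← Nat.cast_mul]
          nth_rewrite 1 [← h3]
          push_cast
          ring
        have e0 : ((2 ^ (i + 1) : ℕ) : ℤ) ∣ (m0 : ℤ) - (2 * a0 + 1 : ℕ) := by
          have h2 : 2 ^ (i + 1) ∣ 2 ^ K := pow_dvd_pow 2 hiK
          have h3 := Nat.div_add_mod m0 (2 ^ K)
          rw [hm0] at h3
          refine (Int.natCast_dvd_natCast.2 h2).trans ⟨(m0 / 2 ^ K : ℕ), ?_⟩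
          rw [← Nat.cast_mul]
          nth_rewrite 1 [← h3]
          push_cast
          ring
        have hpi : (2 : ℤ) ^ (i + 1) = 2 * 2 ^ i := by ring
        rcases h1 with h1 | h1
        · left
          refine ⟨har, ?_⟩
          have h4 : ((2 ^ (i + 1) : ℕ) : ℤ) ∣ 2 * ((a : ℤ) - a0) := by
            have h5 := (h1.sub e1).add e0
            have h6 : (m1 : ℤ) - m0 - (m1 - (2 * a + 1 : ℕ)) + (m0 - (2 * a0 + 1 : ℕ)) =
              2 * ((a : ℤ) - a0) := by push_cast; ring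
            rwa [h6] at h5
          push_cast at h4
          rw [hpi] at h4
          have h7 : (2 : ℤ) ^ i ∣ (a : ℤ) - a0 := Int.dvd_of_mul_dvd_mul_left (by norm_num) h4
          have h8 : (a0 : ℕ) ≡ a [MOD 2 ^ i] := by
            rw [Nat.modEq_iff_dvd]
            push_cast
            exact h7
          exact h8.symm
        · right
          refine ⟨har, ?_⟩
          have h4 : ((2 ^ (i + 1) : ℕ) : ℤ) ∣ 2 * ((a : ℤ) + a0 + 1) := by
            have h5 := (h1.sub e1).sub e0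
            have h6 : (m1 : ℤ) + m0 - (m1 - (2 * a + 1 : ℕ)) - (m0 - (2 * a0 + 1 : ℕ)) =
              2 * ((a : ℤ) + a0 + 1) := by push_cast; ring
            rwa [h6] at h5
          push_cast at h4
          rw [hpi] at h4
          have h7 : (2 : ℤ) ^ i ∣ (a : ℤ) + a0 + 1 := Int.dvd_of_mul_dvd_mul_left (by norm_num) h4
          have h8 : 2 ^ i ∣ a + a0 + 1 := by
            zify
            exact h7
          have hpos : 0 < 2 ^ i := by positivity
          have hlt := Nat.mod_lt a0 hpos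
          have hlt' := Nat.mod_lt a hpos
          have h9 : 2 ^ i ∣ a % 2 ^ i + a0 % 2 ^ i + 1 := by
            have h10 := Nat.div_add_mod a (2 ^ i)
            have h11 := Nat.div_add_mod a0 (2 ^ i)
            have h12 : a + a0 + 1 = 2 ^ i * (a / 2 ^ i + a0 / 2 ^ i) +
              (a % 2 ^ i + a0 % 2 ^ i + 1) := by
              nth_rewrite 1 [← h10]
              nth_rewrite 1 [← h11]
              ring
            rw [h12] at h8
            exact (Nat.dvd_add_right (Dvd.intro _ rfl)).1 h8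
          obtain ⟨c, hc⟩ := h9
          have hc1 : c = 1 := by
            have : c < 2 := by
              by_contra hc2
              have : 2 ^ i * 2 ≤ 2 ^ i * c := Nat.mul_le_mul_left _ (by omega)
              omega
            have : c ≠ 0 := by
              rintro rfl
              omega
            omega
          rw [hc1] at hc
          omega
      have hc1 : ((Finset.range (2 ^ (K - 1))).filter
          (fun a => a % 2 ^ i = a0 % 2 ^ i)).card ≤ 2 ^ n := by
        refine card_le i n (a0 % 2 ^ i) _ ?_ ?_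
        · intro a ha
          rw [Finset.mem_filter, Finset.mem_range, hn] at ha
          exact ha.1
        · intro a ha
          exact (Finset.mem_filter.1 ha).2
      have hc2 : ((Finset.range (2 ^ (K - 1))).filter
          (fun a => a % 2 ^ i = (2 ^ i - 1 - a0 % 2 ^ i))).card ≤ 2 ^ n := by
        refine card_le i n (2 ^ i - 1 - a0 % 2 ^ i) _ ?_ ?_
        · intro a ha
          rw [Finset.mem_filter, Finset.mem_range, hn] at ha
          exact ha.1
        · intro a ha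
          exact (Finset.mem_filter.1 ha).2
      have hc3 := (Finset.card_le_card hsub).trans (Finset.card_union_le _ _)
      rw [hn]
      calc (Bad p).card * 2 ^ i ≤ (2 ^ n + 2 ^ n) * 2 ^ i :=
            Nat.mul_le_mul_right _ (by omega)
        _ = 2 * 2 ^ (i + n) := by ring
  have hcov : Finset.range (2 ^ (K - 1)) ⊆
      (S.filter (fun p => Exceptional p (idx p))).biUnion Bad := by
    intro a ha
    obtain ⟨m, hGm, hm, p, hp, hpm⟩ := hbad a (Finset.mem_range.1 ha)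
    have hab : a ∈ Bad p := by
      rw [hBad, Finset.mem_filter]
      exact ⟨ha, m, hGm, hm, hpm⟩
    rw [Finset.mem_biUnion]
    exact ⟨p, Finset.mem_filter.2 ⟨hp, hexc p hp a hab⟩, hab⟩
  have h1 : 2 ^ (K - 1) ≤ ∑ p ∈ S.filter (fun p => Exceptional p (idx p)), (Bad p).card := by
    calc 2 ^ (K - 1) = (Finset.range (2 ^ (K - 1))).card := by simp
      _ ≤ ((S.filter (fun p => Exceptional p (idx p))).biUnion Bad).card :=
        Finset.card_le_card hcov
      _ ≤ _ := Finset.card_biUnion_le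
  have h2 : ((2 : ℚ) ^ (K - 1)) ≤
      (∑ p ∈ S.filter (fun p => Exceptional p (idx p)), (2 : ℚ) / 2 ^ idx p) * 2 ^ (K - 1) := by
    have h3 : ((2 : ℚ) ^ (K - 1)) ≤
        ∑ p ∈ S.filter (fun p => Exceptional p (idx p)), ((Bad p).card : ℚ) := by
      exact_mod_cast h1
    refine h3.trans ?_
    rw [Finset.sum_mul]
    refine Finset.sum_le_sum (fun p hp => ?_)
    have h4 : (((Bad p).card : ℚ)) * 2 ^ (idx p) ≤ 2 * 2 ^ (K - 1) := by
      exact_mod_cast hbc p (Finset.mem_filter.1 hp).1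
    rw [div_mul_eq_mul_div, le_div_iff₀ (by positivity)]
    exact h4
  have h4 : (0 : ℚ) < 2 ^ (K - 1) := by positivity
  nlinarith [h2, hsum, h4]

end Pool.Agent.Lib.MP_f53aaa_nt
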